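import Pool.Agent.Helper575.FF.Main
import Pool.Agent.Helper575.FF.Recog
import Pool.Agent.Helper575.FF.SL15
import Pool.Agent.Helper575.FF.SL16
import Pool.Agent.Helper127.FF.Core6
import Pool.Agent.Helper127.FF.Core7
import Pool.Agent.Helper127.FF.Core9

set_option autoImplicit false

namespace Pool.Agent.Results.MP_df86d1_al.AllCases

/-- `P`, with the continuous homomorphisms `iG : G → P` and `iH : H → P`, is the free profinite
product (the coproduct in the category of profinite groups) of `G` and `H`. -/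
def IsFreeProduct (G H P : Type) [Group G] [TopologicalSpace G] [Group H] [TopologicalSpace H]
    [Group P] [TopologicalSpace P] (iG : ContinuousMonoidHom G P) (iH : ContinuousMonoidHom H P) :
    Prop :=
  ∀ (K : Type) [Group K] [TopologicalSpace K] [IsTopologicalGroup K] [CompactSpace K]
      [T2Space K] [TotallyDisconnectedSpace K]
      (f : ContinuousMonoidHom G K) (g : ContinuousMonoidHom H K),
      ∃! φ : ContinuousMonoidHom P K, (∀ x, φ (iG x) = f x) ∧ (∀ y, φ (iH y) = g y)

/-- `G` is a free profinite group of rank `m`: the free object on `m` generators in the category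
of profinite groups. -/
def IsFreeProfinite (m : ℕ) (G : Type) [Group G] [TopologicalSpace G] : Prop :=
  ∃ ι : Fin m → G,
    ∀ (K : Type) [Group K] [TopologicalSpace K] [IsTopologicalGroup K] [CompactSpace K]
      [T2Space K] [TotallyDisconnectedSpace K] (f : Fin m → K),
      ∃! φ : ContinuousMonoidHom G K, ∀ i, φ (ι i) = f i

/-- every finite continuous abelian quotient of `G` is cyclic (the abelianization of the
profinite group `G` is procyclic) -/
def ProcyclicAbelianization (G : Type) [Group G] [TopologicalSpace G] : Prop :=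
  ∀ (A : Type) [CommGroup A] [Finite A] (φ : G →* A), IsOpen (φ.ker : Set G) →
    Function.Surjective φ → IsCyclic A

/-- every finite continuous quotient of `G` is nilpotent (`G` is pronilpotent) -/
def Pronilpotent (G : Type) [Group G] [TopologicalSpace G] : Prop :=
  ∀ (Q : Type) [Group Q] [Finite Q] (φ : G →* Q), IsOpen (φ.ker : Set G) →
    Function.Surjective φ → Group.IsNilpotent Q

/-- `G` has at most `p` homomorphisms with open kernel to the cyclic group of order `p`. -/
def FewHoms (G : Type) [Group G] [TopologicalSpace G] (p : ℕ) : Prop :=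
  Nat.card {φ : G →* Multiplicative (ZMod p) // IsOpen (φ.ker : Set G)} ≤ p

/-- `G` is prosolvable: every finite quotient of `G` by an open kernel is solvable. -/
def Prosolvable (G : Type) [Group G] [TopologicalSpace G] : Prop :=
  ∀ (Q : Type) [Group Q] [Finite Q] (φ : G →* Q), IsOpen (φ.ker : Set G) →
    Function.Surjective φ → Group.IsSolvable Q

/-- no open subgroup of `G` has a homomorphism with open kernel onto the alternating group `A₅` -/
def NoA5 (G : Type) [Group G] [TopologicalSpace G] : Prop :=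
  ∀ U : Subgroup G, IsOpen (U : Set G) → ∀ φ : U →* alternatingGroup (Fin 5),
    IsOpen (φ.ker : Set U) → ¬ Function.Surjective φ

/-- some open subgroup of `G` is free profinite of finite rank -/
def VirtuallyFree (G : Type) [Group G] [TopologicalSpace G] : Prop :=
  ∃ U : Subgroup G, IsOpen (U : Set G) ∧ ∃ r : ℕ, IsFreeProfinite r U

theorem result :
    ∀ (G : Type) [Group G] [TopologicalSpace G] [IsTopologicalGroup G] [CompactSpace G]
      [T2Space G] [TotallyDisconnectedSpace G]
      (H : Type) [Group H] [TopologicalSpace H] [IsTopologicalGroup H] [CompactSpace H]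
      [T2Space H] [TotallyDisconnectedSpace H]
      (P : Type) [Group P] [TopologicalSpace P] [IsTopologicalGroup P] [CompactSpace P]
      [T2Space P] [TotallyDisconnectedSpace P]
      (iG : ContinuousMonoidHom G P) (iH : ContinuousMonoidHom H P),
      IsFreeProduct G H P iG iH → ∀ n : ℕ, IsFreeProfinite n P →
      (n ≤ 3 ∨
        (∀ p : ℕ, p.Prime → FewHoms G p ∨ FewHoms H p) ∨
        Nonempty (G ≃ₜ* H) ∨
        (∃ (U : Subgroup G) (V : Subgroup H), IsOpen (U : Set G) ∧ IsOpen (V : Set H) ∧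
          Nonempty (U ≃ₜ* V)) ∨
        (∃ a b c d : ℕ, 0 < a + b ∧ ∀ (S : Type) [Group S] [Finite S] [IsSimpleGroup S],
          Nat.card {φ : G →* S // IsOpen (φ.ker : Set G)} ^ a * Nat.card S ^ c =
          Nat.card {φ : H →* S // IsOpen (φ.ker : Set H)} ^ b * Nat.card S ^ d) ∨
        VirtuallyFree G ∨ VirtuallyFree H ∨
        (Prosolvable G ∧ Prosolvable H) ∨ (NoA5 G ∧ NoA5 H) ∨
        (∃ m, IsFreeProfinite m G) ∨ (∃ k, IsFreeProfinite k H) ∨
        ProcyclicAbelianization G ∨ ProcyclicAbelianization H ∨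
        Pronilpotent G ∨ Pronilpotent H) →
      ∃ m k, m + k = n ∧ IsFreeProfinite m G ∧ IsFreeProfinite k H := by
  intro G _ _ _ _ _ _ H _ _ _ _ _ _ P _ _ _ _ _ _ iG iH hc n hf hcase
  have hc' : Helper575.FF.IsCoprod G H P iG iH := hc
  have hf' : Helper575.FF.IsFreePro n P := hf
  have hcs := Helper575.FF.coprod_symm iG iH hc'
  have htriv : ∀ (G : Type) [Group G] [TopologicalSpace G] [Subsingleton G],
      IsFreeProfinite 0 G := fun G _ _ _ => Helper575.FF.SL14.L14
  have hcompl : ∀ m, IsFreeProfinite m G →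
      ∃ m k, m + k = n ∧ IsFreeProfinite m G ∧ IsFreeProfinite k H := by
    intro m hm
    obtain ⟨h1, h2⟩ := Helper575.FF.complement_free iG iH hc' hf' hm
    exact ⟨m, n - m, by omega, hm, h1⟩
  have hcompl' : ∀ k, IsFreeProfinite k H →
      ∃ m k, m + k = n ∧ IsFreeProfinite m G ∧ IsFreeProfinite k H := by
    intro k hk
    obtain ⟨h1, h2⟩ := Helper575.FF.complement_free iH iG hcs hf' hk
    exact ⟨n - k, k, by omega, h1, hk⟩
  have hfι := hf
  obtain ⟨ι, hι⟩ := hfι
  rcases hcase with h | h | ⟨⟨e⟩⟩ | ⟨U, V, hUo, hVo, ⟨e⟩⟩ | ⟨a, b, c, d, hab, hS⟩ |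
    ⟨U, hUo, r, κ, hκ⟩ | ⟨U, hUo, r, κ, hκ⟩ | ⟨hG, hH⟩ | ⟨hG, hH⟩ | ⟨m, h⟩ | ⟨k, h⟩ | h | h | h | h
  · obtain ⟨⟨m, hm⟩, -⟩ := Helper127.FF.main3 G H P iG iH hc n ι hι h
    exact hcompl m hm
  · obtain ⟨⟨m, hm⟩, -⟩ := Helper127.FF.main5 G H P iG iH hc n ι hι h
    exact hcompl m hm
  · obtain ⟨⟨m, hm⟩, -⟩ := Helper127.FF.main_iso G H P iG iH hc n ι hι e
    exact hcompl m hm
  · obtain ⟨⟨m, hm⟩, -⟩ := Helper127.FF.main_comm G H P iG iH hc n ι hι U V hUo hVo e
    exact hcompl m hm
  · obtain ⟨⟨m, hm⟩, -⟩ := Helper127.FF.main_rel2 G H P iG iH hc n ι hι a b c d hab hS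
    exact hcompl m hm
  · obtain ⟨⟨m, hm⟩, -⟩ := Helper127.FF.main_virt G H P iG iH hc n ι hι U hUo r κ hκ
    exact hcompl m hm
  · obtain ⟨⟨k, hk⟩, -⟩ := Helper127.FF.main_virt H G P iH iG hcs n ι hι U hUo r κ hκ
    exact hcompl' k hk
  · obtain ⟨⟨m, hm⟩, -⟩ := Helper127.FF.main_a5free G H P iG iH hc n ι hι
      (fun U hUo φ hφ => Helper127.FF.a5_not_solvable
        (Helper127.FF.EE.open_solv G (fun Q _ _ ψ hψ => hG Q ψ.1 ψ.2 hψ) U hUo _ φ hφ))
      (fun U hUo φ hφ => Helper127.FF.a5_not_solvable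
        (Helper127.FF.EE.open_solv H (fun Q _ _ ψ hψ => hH Q ψ.1 ψ.2 hψ) U hUo _ φ hφ))
    exact hcompl m hm
  · obtain ⟨⟨m, hm⟩, -⟩ := Helper127.FF.main_a5free G H P iG iH hc n ι hι
      (fun U hUo φ => hG U hUo φ.1 φ.2) (fun U hUo φ => hH U hUo φ.1 φ.2)
    exact hcompl m hm
  · exact hcompl m h
  · exact hcompl' k h
  · rcases subsingleton_or_nontrivial G with hG | hG
    · exact hcompl 0 (htriv G)
    · exact hcompl 1 (Helper575.FF.le_case iG iH hc' hf'
        (fun p hp => Helper575.FF.SL15.L15 h p hp))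
  · rcases subsingleton_or_nontrivial H with hH | hH
    · exact hcompl' 0 (htriv H)
    · exact hcompl' 1 (Helper575.FF.le_case iH iG hcs hf'
        (fun p hp => Helper575.FF.SL15.L15 h p hp))
  · rcases subsingleton_or_nontrivial G with hG | hG
    · exact hcompl 0 (htriv G)
    · have hUG := Helper575.FF.unif_of iG iH hc' hf'
      exact hcompl 1 (Helper575.FF.le_case iG iH hc' hf'
        (fun p hp => Helper575.FF.SL16.L16 hUG (fun A X _ _ _ => Helper575.FF.SL4b.L4b A X) h
          (fun q hq => Helper575.FF.SL5.L5 hUG (fun A X _ _ _ => Helper575.FF.SL4b.L4b A X) q hq)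
          p hp))
  · rcases subsingleton_or_nontrivial H with hH | hH
    · exact hcompl' 0 (htriv H)
    · have hUH := Helper575.FF.unif_of iH iG hcs hf'
      exact hcompl' 1 (Helper575.FF.le_case iH iG hcs hf'
        (fun p hp => Helper575.FF.SL16.L16 hUH (fun A X _ _ _ => Helper575.FF.SL4b.L4b A X) h
          (fun q hq => Helper575.FF.SL5.L5 hUH (fun A X _ _ _ => Helper575.FF.SL4b.L4b A X) q hq)
          p hp))

end Pool.Agent.Results.MP_df86d1_al.AllCases
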