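import Mathlib
import Pool.Agent.Helper127.FF.Core9

set_option autoImplicit false

namespace Pool.Agent.Results.MP_df86d1_al.BothProsolvable

open Pool.Agent.Helper127.FF

/-- If the coproduct of the profinite groups `G` and `H` is free profinite of rank `n`, and both `G`
and `H` are prosolvable, or more generally no open subgroup of `G` or of `H` has the alternating
group of degree five as a quotient, then `G` and `H` are free profinite groups. -/
theorem result :
    ∀ (G : Type) [Group G] [TopologicalSpace G] [IsTopologicalGroup G] [CompactSpace G]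
      [T2Space G] [TotallyDisconnectedSpace G]
      (H : Type) [Group H] [TopologicalSpace H] [IsTopologicalGroup H] [CompactSpace H]
      [T2Space H] [TotallyDisconnectedSpace H]
      (P : Type) [Group P] [TopologicalSpace P] [IsTopologicalGroup P] [CompactSpace P]
      [T2Space P] [TotallyDisconnectedSpace P]
      (iG : ContinuousMonoidHom G P) (iH : ContinuousMonoidHom H P),
      (∀ (K : Type) [Group K] [TopologicalSpace K] [IsTopologicalGroup K] [CompactSpace K]
          [T2Space K] [TotallyDisconnectedSpace K]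
          (f : ContinuousMonoidHom G K) (g : ContinuousMonoidHom H K),
          ∃! φ : ContinuousMonoidHom P K, (∀ x, φ (iG x) = f x) ∧ (∀ y, φ (iH y) = g y)) →
      ∀ n : ℕ, (∃ ι : Fin n → P,
        ∀ (K : Type) [Group K] [TopologicalSpace K] [IsTopologicalGroup K] [CompactSpace K]
          [T2Space K] [TotallyDisconnectedSpace K] (f : Fin n → K),
          ∃! φ : ContinuousMonoidHom P K, ∀ i, φ (ι i) = f i) →
      (((∀ (Q : Type) [Group Q] [Finite Q] (φ : G →* Q), IsOpen (φ.ker : Set G) →
            Function.Surjective φ → Group.IsSolvable Q) ∧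
          (∀ (Q : Type) [Group Q] [Finite Q] (φ : H →* Q), IsOpen (φ.ker : Set H) →
            Function.Surjective φ → Group.IsSolvable Q)) ∨
        ((∀ U : Subgroup G, IsOpen (U : Set G) → ∀ φ : U →* alternatingGroup (Fin 5),
            IsOpen (φ.ker : Set U) → ¬ Function.Surjective φ) ∧
          (∀ U : Subgroup H, IsOpen (U : Set H) → ∀ φ : U →* alternatingGroup (Fin 5),
            IsOpen (φ.ker : Set U) → ¬ Function.Surjective φ))) →
      (∃ m : ℕ, ∃ ι : Fin m → G,
        ∀ (K : Type) [Group K] [TopologicalSpace K] [IsTopologicalGroup K] [CompactSpace K]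
          [T2Space K] [TotallyDisconnectedSpace K] (f : Fin m → K),
          ∃! φ : ContinuousMonoidHom G K, ∀ i, φ (ι i) = f i) ∧
      (∃ k : ℕ, ∃ ι : Fin k → H,
        ∀ (K : Type) [Group K] [TopologicalSpace K] [IsTopologicalGroup K] [CompactSpace K]
          [T2Space K] [TotallyDisconnectedSpace K] (f : Fin k → K),
          ∃! φ : ContinuousMonoidHom H K, ∀ i, φ (ι i) = f i) := by
  intro G _ _ _ _ _ _ H _ _ _ _ _ _ P _ _ _ _ _ _ iG iH hU n hF hn
  obtain ⟨ι, hι⟩ := hF
  rcases hn with ⟨hG, hH⟩ | ⟨hG, hH⟩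
  · refine main_a5free G H P iG iH hU n ι hι ?_ ?_
    · intro U hUo φ hφ
      exact a5_not_solvable (EE.open_solv G (fun Q _ _ ψ hψ => hG Q ψ.1 ψ.2 hψ) U hUo _ φ hφ)
    · intro U hUo φ hφ
      exact a5_not_solvable (EE.open_solv H (fun Q _ _ ψ hψ => hH Q ψ.1 ψ.2 hψ) U hUo _ φ hφ)
  · exact main_a5free G H P iG iH hU n ι hι (fun U hUo φ => hG U hUo φ.1 φ.2)
      (fun U hUo φ => hH U hUo φ.1 φ.2)

end Pool.Agent.Results.MP_df86d1_al.BothProsolvable
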