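import Mathlib
import Pool.Agent.Helper127.FF.Core7

set_option autoImplicit false

namespace Pool.Agent.Results.MP_df86d1_al.Commensurable

open Pool.Agent.Helper127.FF

/-- If the coproduct of the profinite groups `G` and `H` is free profinite of rank `n`, then `G` and
`H` are free profinite groups of finite rank in each of the following cases:
`G` and `H` have isomorphic open subgroups; `G` or `H` has an open subgroup which is a
free profinite group of finite rank; the numbers of homomorphisms to finite simple groups satisfy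
a fixed multiplicative relation. -/
theorem result :
    ∀ (G : Type) [Group G] [TopologicalSpace G] [IsTopologicalGroup G] [CompactSpace G]
      [T2Space G] [TotallyDisconnectedSpace G]
      (H : Type) [Group H] [TopologicalSpace H] [IsTopologicalGroup H] [CompactSpace H]
      [T2Space H] [TotallyDisconnectedSpace H]
      (P : Type) [Group P] [TopologicalSpace P] [IsTopologicalGroup P] [CompactSpace P]
      [T2Space P] [TotallyDisconnectedSpace P]
      (iG : ContinuousMonoidHom G P) (iH : ContinuousMonoidHom H P),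
      (∀ (K : Type) [Group K] [TopologicalSpace K] [IsTopologicalGroup K] [CompactSpace K]
          [T2Space K] [TotallyDisconnectedSpace K]
          (f : ContinuousMonoidHom G K) (g : ContinuousMonoidHom H K),
          ∃! φ : ContinuousMonoidHom P K, (∀ x, φ (iG x) = f x) ∧ (∀ y, φ (iH y) = g y)) →
      ∀ n : ℕ, (∃ ι : Fin n → P,
        ∀ (K : Type) [Group K] [TopologicalSpace K] [IsTopologicalGroup K] [CompactSpace K]
          [T2Space K] [TotallyDisconnectedSpace K] (f : Fin n → K),
          ∃! φ : ContinuousMonoidHom P K, ∀ i, φ (ι i) = f i) →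
      ((∃ (U : Subgroup G) (V : Subgroup H), IsOpen (U : Set G) ∧ IsOpen (V : Set H) ∧
          Nonempty (U ≃ₜ* V)) ∨
        (∃ U : Subgroup G, IsOpen (U : Set G) ∧ ∃ r : ℕ, ∃ κ : Fin r → U,
          ∀ (K : Type) [Group K] [TopologicalSpace K] [IsTopologicalGroup K] [CompactSpace K]
            [T2Space K] [TotallyDisconnectedSpace K] (f : Fin r → K),
            ∃! φ : ContinuousMonoidHom U K, ∀ i, φ (κ i) = f i) ∨
        (∃ U : Subgroup H, IsOpen (U : Set H) ∧ ∃ r : ℕ, ∃ κ : Fin r → U,
          ∀ (K : Type) [Group K] [TopologicalSpace K] [IsTopologicalGroup K] [CompactSpace K]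
            [T2Space K] [TotallyDisconnectedSpace K] (f : Fin r → K),
            ∃! φ : ContinuousMonoidHom U K, ∀ i, φ (κ i) = f i) ∨
        (∃ a b c d : ℕ, 0 < a + b ∧ ∀ (S : Type) [Group S] [Finite S] [IsSimpleGroup S],
          Nat.card {φ : G →* S // IsOpen (φ.ker : Set G)} ^ a * Nat.card S ^ c =
          Nat.card {φ : H →* S // IsOpen (φ.ker : Set H)} ^ b * Nat.card S ^ d)) →
      (∃ m : ℕ, ∃ ι : Fin m → G,
        ∀ (K : Type) [Group K] [TopologicalSpace K] [IsTopologicalGroup K] [CompactSpace K]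
          [T2Space K] [TotallyDisconnectedSpace K] (f : Fin m → K),
          ∃! φ : ContinuousMonoidHom G K, ∀ i, φ (ι i) = f i) ∧
      (∃ k : ℕ, ∃ ι : Fin k → H,
        ∀ (K : Type) [Group K] [TopologicalSpace K] [IsTopologicalGroup K] [CompactSpace K]
          [T2Space K] [TotallyDisconnectedSpace K] (f : Fin k → K),
          ∃! φ : ContinuousMonoidHom H K, ∀ i, φ (ι i) = f i) := by
  intro G _ _ _ _ _ _ H _ _ _ _ _ _ P _ _ _ _ _ _ iG iH hU n hF hn
  obtain ⟨ι, hι⟩ := hF
  rcases hn with ⟨U, V, hUo, hVo, ⟨e⟩⟩ | ⟨U, hUo, r, κ, hκ⟩ | ⟨U, hUo, r, κ, hκ⟩ |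
    ⟨a, b, c, d, hab, hS⟩
  · exact main_comm G H P iG iH hU n ι hι U V hUo hVo e
  · exact main_virt G H P iG iH hU n ι hι U hUo r κ hκ
  · have h := main_virt H G P iH iG (by
      intro K _ _ _ _ _ _ f g
      obtain ⟨φ, h1, h2⟩ := hU K g f
      exact ⟨φ, ⟨h1.2, h1.1⟩, fun ψ hψ => h2 ψ ⟨hψ.2, hψ.1⟩⟩) n ι hι U hUo r κ hκ
    exact ⟨h.2, h.1⟩
  · exact main_rel2 G H P iG iH hU n ι hι a b c d hab hS

end Pool.Agent.Results.MP_df86d1_al.Commensurable
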