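import Mathlib
import Pool.Agent.Helper127.FF.Core

set_option autoImplicit false

namespace Pool.Agent.Results.MP_df86d1_al.RankTwo

open Pool.Agent.Helper127.FF

/-- If the coproduct of the profinite groups `G` and `H` is free profinite of rank `n`, and `n ≤ 2`
or one of the factors has at most `p` homomorphisms with open kernel to the cyclic group of order
`p` for every prime `p`, then `G` and `H` are free profinite groups of finite rank. -/
theorem result :
    ∀ (G : Type) [Group G] [TopologicalSpace G] [IsTopologicalGroup G] [CompactSpace G]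
      [T2Space G] [TotallyDisconnectedSpace G]
      (H : Type) [Group H] [TopologicalSpace H] [IsTopologicalGroup H] [CompactSpace H]
      [T2Space H] [TotallyDisconnectedSpace H]
      (P : Type) [Group P] [TopologicalSpace P] [IsTopologicalGroup P] [CompactSpace P]
      [T2Space P] [TotallyDisconnectedSpace P]
      (iG : ContinuousMonoidHom G P) (iH : ContinuousMonoidHom H P),
      (∀ (K : Type) [Group K] [TopologicalSpace K] [IsTopologicalGroup K] [CompactSpace K]
          [T2Space K] [TotallyDisconnectedSpace K]
          (f : ContinuousMonoidHom G K) (g : ContinuousMonoidHom H K),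
          ∃! φ : ContinuousMonoidHom P K, (∀ x, φ (iG x) = f x) ∧ (∀ y, φ (iH y) = g y)) →
      ∀ n : ℕ, (∃ ι : Fin n → P,
        ∀ (K : Type) [Group K] [TopologicalSpace K] [IsTopologicalGroup K] [CompactSpace K]
          [T2Space K] [TotallyDisconnectedSpace K] (f : Fin n → K),
          ∃! φ : ContinuousMonoidHom P K, ∀ i, φ (ι i) = f i) →
      (n ≤ 2 ∨
        (∀ p : ℕ, p.Prime →
          Nat.card {φ : G →* Multiplicative (ZMod p) // IsOpen (φ.ker : Set G)} ≤ p) ∨
        (∀ p : ℕ, p.Prime →
          Nat.card {φ : H →* Multiplicative (ZMod p) // IsOpen (φ.ker : Set H)} ≤ p)) →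
      (∃ m : ℕ, ∃ ι : Fin m → G,
        ∀ (K : Type) [Group K] [TopologicalSpace K] [IsTopologicalGroup K] [CompactSpace K]
          [T2Space K] [TotallyDisconnectedSpace K] (f : Fin m → K),
          ∃! φ : ContinuousMonoidHom G K, ∀ i, φ (ι i) = f i) ∧
      (∃ k : ℕ, ∃ ι : Fin k → H,
        ∀ (K : Type) [Group K] [TopologicalSpace K] [IsTopologicalGroup K] [CompactSpace K]
          [T2Space K] [TotallyDisconnectedSpace K] (f : Fin k → K),
          ∃! φ : ContinuousMonoidHom H K, ∀ i, φ (ι i) = f i) := by
  intro G _ _ _ _ _ _ H _ _ _ _ _ _ P _ _ _ _ _ _ iG iH hU n hF hn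
  obtain ⟨ι, hι⟩ := hF
  exact main G H P iG iH hU n ι hι hn

end Pool.Agent.Results.MP_df86d1_al.RankTwo
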